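import Pool.Agent.W34.GB.Stm
import Pool.Agent.H397R2.QF.H3873PS

/-! Project GZ: the small primes. -/

set_option autoImplicit false

open Polynomial Pool.Agent.H337R2

namespace Pool.Agent.W924.GZ

open Pool.Agent.W34.GB
open Pool.Agent.H397R2.QG (PSL_up PSL_sum PSf PSf_nonneg PS_fac_pos PS_scale PS_nmul PSP
  PSP_monic PS_norm_eq)

noncomputable section

set_option linter.unusedSectionVars false

theorem leg (p h : ℕ) [hp : Fact p.Prime] :
    9 * h * padicValNat p (2 * h).factorial ≤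
      4 * padicValNat p (∏ i ∈ Finset.range (3 * h), i.factorial) +
      18 * (h * (Nat.log p (10 * h + 8) + 1)) := by
  have hP : 1 ≤ p - 1 := by
    have := hp.out.two_le
    omega
  have h8 := PSL_up p (2 * h)
  have h7 := PSL_sum p (3 * h) (10 * h + 8) (by omega)
  have hE : 1 ≤ Nat.log p (10 * h + 8) + 1 := by omega
  generalize Nat.log p (10 * h + 8) + 1 = E at *
  generalize padicValNat p (∏ i ∈ Finset.range (3 * h), i.factorial) = V at *
  generalize padicValNat p (2 * h).factorial = v2 at *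
  generalize p - 1 = P at *
  have hPE : 1 ≤ P * E := Nat.mul_pos hP hE
  refine le_of_mul_le_mul_left ?_ (show 0 < P from hP)
  have a1 : 9 * h * (P * v2) ≤ 9 * h * (2 * h) := Nat.mul_le_mul_left _ h8
  have a3 : 6 * h * 1 ≤ 6 * h * (P * E) := Nat.mul_le_mul_left _ hPE
  nlinarith [a1, a3, h7]

theorem fw_bd (p h σ K i k q : ℕ) [hp : Fact p.Prime] (w : ℚ) (hσ : σ = 1 ∨ σ = 3) (hi : i ≤ 3)
    (hk : k ≤ 2 * h) (hK : K ≤ h) (hw : padicNorm p ((q : ℚ) * w) ≤ 1) :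
    padicNorm p ((q : ℚ) * fw σ K w i k) ≤ ((10 * h + 8 : ℕ) : ℚ) ^ 3 := by
  have hM1 : (1 : ℚ) ≤ ((10 * h + 8 : ℕ) : ℚ) := by exact_mod_cast (by omega : 1 ≤ 10 * h + 8)
  have hM : ∀ m : ℕ, 1 ≤ m → m ≤ 10 * h + 8 → (padicNorm p (m : ℚ))⁻¹ ≤ ((10 * h + 8 : ℕ) : ℚ) := by
    intro m h1 h2
    have h3 := norm_inv_le (p := p) (a := (m : ℤ)) (by omega) (M := ((10 * h + 8 : ℕ) : ℚ)) (by
      rw [Int.cast_natCast, abs_of_nonneg (by positivity)]
      exact_mod_cast h2)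
    rwa [Int.cast_natCast] at h3
  generalize ((10 * h + 8 : ℕ) : ℚ) = M at *
  have hM2 : M ^ i ≤ M ^ 3 := pow_le_pow_right₀ hM1 hi
  have hM0 : (0 : ℚ) ≤ M ^ 3 := by positivity
  have hpow : ∀ x : ℚ, (padicNorm p x)⁻¹ ≤ M → padicNorm p (1 / x ^ i) ≤ M ^ 3 := by
    intro x hx
    rw [padicNorm.div, padicNorm.one, padicNorm_pow', one_div, ← inv_pow]
    exact (pow_le_pow_left₀ (inv_nonneg.2 (padicNorm.nonneg _)) hx i).trans hM2
  have hq : padicNorm p (q : ℚ) ≤ 1 := padicNorm.of_nat q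
  have hfr : ∀ (a b : ℕ) (x : ℚ), x = (a : ℚ) / (b : ℚ) → 1 ≤ a → a ≤ 10 * h + 8 →
      (padicNorm p x)⁻¹ ≤ M := by
    intro a b x hx h1 h2
    rw [hx, padicNorm.div, inv_div]
    have h4 : padicNorm p ((b : ℕ) : ℚ) ≤ 1 := padicNorm.of_nat b
    have h5 := hM a h1 h2
    rw [div_eq_mul_inv]
    calc padicNorm p ((b : ℕ) : ℚ) * (padicNorm p ((a : ℕ) : ℚ))⁻¹
        ≤ 1 * (padicNorm p ((a : ℕ) : ℚ))⁻¹ :=
          mul_le_mul_of_nonneg_right h4 (inv_nonneg.2 (padicNorm.nonneg _))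
      _ ≤ M := by rw [one_mul]; exact h5
  have e : (q : ℚ) * fw σ K w i k =
      (q : ℚ) * ∑ j ∈ Finset.range k, 1 / ((j : ℚ) + (σ : ℚ) / 4) ^ i +
      ((q : ℚ) * w) * ∑ j ∈ Finset.range k, 1 / ((j : ℚ) + 1 / 2) ^ i -
      ((q : ℚ) + (q : ℚ) * w) * ∑ j ∈ Finset.Ico 1 (k + K), 1 / (j : ℚ) ^ i := by
    unfold fw
    ring
  rw [e]
  refine padicNorm.sub.trans (max_le (padicNorm.nonarchimedean.trans (max_le ?_ ?_)) ?_)
  · apply PS_scale _ _ _ hq
    apply padicNorm.sum_le' _ hM0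
    intro j hj
    rw [Finset.mem_range] at hj
    apply hpow
    apply hfr (4 * j + σ) 4
    · push_cast
      field_simp
    · omega
    · omega
  · apply PS_scale _ _ _ hw
    apply padicNorm.sum_le' _ hM0
    intro j hj
    rw [Finset.mem_range] at hj
    apply hpow
    apply hfr (2 * j + 1) 2
    · push_cast
      field_simp
    · omega
    · omega
  · apply PS_scale
    · exact padicNorm.nonarchimedean.trans (max_le hq hw)
    · apply padicNorm.sum_le' _ hM0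
      intro j hj
      rw [Finset.mem_Ico] at hj
      apply hpow
      exact hM j hj.1 (by omega)

section aux

variable {p : ℕ} [hp : Fact p.Prime]

lemma brick {h k : ℕ} (hh : 1 ≤ h) (hk : k ≤ 2 * h) :
    padicNorm p ((((2 * h).factorial : ℕ)) : ℚ) * ∏ m ∈ Finset.Icc 1 (2 * h), PSf p k m ≤
      ((10 * h + 8 : ℕ) : ℚ) ^ 2 := by
  obtain ⟨N, hN⟩ : ∃ N, 2 * h = N + 1 := ⟨2 * h - 1, by omega⟩
  rw [hN]
  have h1 := brick_bound (p := p) 1 N k ((10 * h + 8 : ℕ) : ℚ)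
    (by exact_mod_cast (by omega : 1 ≤ 10 * h + 8)) (by exact_mod_cast (by omega : N + 1 ≤ 10 * h + 8))
    (by exact_mod_cast (by omega : 1 + N ≤ 10 * h + 8)) (by exact_mod_cast (by omega : k ≤ 10 * h + 8))
  rw [show 1 + N = N + 1 by omega] at h1
  have h2 : padicNorm p (((N + 1).factorial : ℕ) : ℚ) ≤ padicNorm p ((N.factorial : ℕ) : ℚ) := by
    rw [Nat.factorial_succ, Nat.cast_mul, padicNorm.mul]
    exact mul_le_of_le_one_left (padicNorm.nonneg _) (padicNorm.of_nat _)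
  refine le_trans (mul_le_mul_of_nonneg_right h2 (Finset.prod_nonneg fun m _ => PSf_nonneg k m)) h1

lemma prodf {h k : ℕ} (hk : k ∈ sN h) :
    ∏ m ∈ (sN h).erase k, (padicNorm p ((m : ℚ) - k))⁻¹ ^ m3 m =
      (∏ m ∈ Finset.Icc 1 (2 * h), PSf p k m) ^ 3 := by
  have h1 : ∏ m ∈ (sN h).erase k, (padicNorm p ((m : ℚ) - k))⁻¹ ^ m3 m =
      ∏ m ∈ sN h, PSf p k m ^ 3 := by
    rw [← Finset.mul_prod_erase _ _ hk]
    rw [show PSf p k k = 1 by simp [PSf], one_pow, one_mul]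
    apply Finset.prod_congr rfl
    intro m hm
    rw [PSf, if_neg (Finset.ne_of_mem_erase hm)]
    rfl
  rw [h1, Finset.prod_pow]
  rfl

/-- the constant of the entries -/
def UU (p h : ℕ) : ℚ := (padicNorm p (((2 * h).factorial : ℕ) : ℚ))⁻¹ ^ 3

lemma UU_nonneg (h : ℕ) : 0 ≤ UU p h :=
  pow_nonneg (inv_nonneg.2 (padicNorm.nonneg _)) _

lemma pa_bd {h : ℕ} (hh : 1 ≤ h) (E : ℚ[X]) (A : ℚ) (hA : 0 ≤ A) {k : ℕ} (hk : k ∈ sN h)
    (hE : PB p ((10 * h + 8 : ℕ) : ℚ) A (TS (-(k : ℚ)) E)) (i : ℕ) (hi1 : 1 ≤ i) :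
    padicNorm p (pa (sN h) m3 E k i) ≤ ((10 * h + 8 : ℕ) : ℚ) ^ 8 * (UU p h * A) := by
  set M : ℚ := ((10 * h + 8 : ℕ) : ℚ) with hM
  have hM1 : 1 ≤ M := by rw [hM]; exact_mod_cast (by omega : 1 ≤ 10 * h + 8)
  have hM0 : (0 : ℚ) ≤ M := by linarith
  have hM12 : ((2 * h : ℕ) : ℚ) ≤ M := by rw [hM]; exact_mod_cast (by omega : 2 * h ≤ 10 * h + 8)
  have hk' := hk
  rw [sN, Finset.mem_Icc] at hk'
  have hU := UU_nonneg (p := p) h
  unfold pa
  split_ifs with hi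
  · set F8 := padicNorm p (((2 * h).factorial : ℕ) : ℚ) with hF8
    have h8p : 0 < F8 := PS_fac_pos _
    have h1 := pfc_bound (p := p) (sN h) m3 E k M A
      (fun m => (padicNorm p ((m : ℚ) - k))⁻¹) hM0 hA hE
      (by
        intro m hm _
        have hmk := Finset.ne_of_mem_erase hm
        have hm2 := Finset.mem_of_mem_erase hm
        rw [sN, Finset.mem_Icc] at hm2
        refine ⟨le_rfl, ?_⟩
        have h3 := norm_inv_le (p := p) (a := (m : ℤ) - k) (by omega) (M := M) (by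
          push_cast
          have h5 : (m : ℚ) ≤ ((2 * h : ℕ) : ℚ) := by exact_mod_cast (by omega : m ≤ 2 * h)
          have h6 : (k : ℚ) ≤ ((2 * h : ℕ) : ℚ) := by exact_mod_cast (by omega : k ≤ 2 * h)
          have h7 : (0 : ℚ) ≤ m := by positivity
          have h8 : (0 : ℚ) ≤ k := by positivity
          rw [abs_le]
          constructor <;> linarith)
        push_cast at h3
        exact h3)
      (fun m _ => inv_nonneg.2 (padicNorm.nonneg _)) (m3 k - i)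
    refine h1.trans ?_
    rw [prodf hk]
    have b3 := brick (p := p) (h := h) (k := k) hh (by omega)
    rw [← hM, ← hF8] at b3
    set G3 := ∏ m ∈ Finset.Icc 1 (2 * h), PSf p k m with hG3
    have g3 : 0 ≤ G3 := Finset.prod_nonneg fun m _ => PSf_nonneg k m
    have b4 : G3 ≤ M ^ 2 * F8⁻¹ := by
      rw [← div_eq_mul_inv, le_div_iff₀ h8p]
      linarith [b3]
    have hml : m3 k - i ≤ 2 := by
      have : m3 k = 3 := rfl
      omega
    have h8 : M ^ (m3 k - i) ≤ M ^ 2 := pow_le_pow_right₀ hM1 hml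
    have i8 : 0 ≤ F8⁻¹ := inv_nonneg.2 h8p.le
    calc A * G3 ^ 3 * M ^ (m3 k - i)
        ≤ A * (M ^ 2 * F8⁻¹) ^ 3 * M ^ 2 := by gcongr
      _ = M ^ 8 * (UU p h * A) := by
        unfold UU
        rw [← hF8]
        ring
  · rw [padicNorm.zero]; positivity

end aux

/-- the entries -/
theorem entry {h p σ : ℕ} [Fact p.Prime] (hh : 1 ≤ h) (q : ℕ) (w u v : ℚ) (hu : UInt q w u v)
    (hσ : σ = 1 ∨ σ = 3) (E : ℚ[X]) (A : ℚ) (hA : 0 ≤ A)
    (hE : ∀ k ∈ sN h, PB p ((10 * h + 8 : ℕ) : ℚ) A (TS (-(k : ℚ)) E)) :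
    padicNorm p ((q : ℚ) * xf h σ w u v E) ≤ ((10 * h + 8 : ℕ) : ℚ) ^ 11 * (UU p h * A) := by
  obtain ⟨hq, ⟨zw, hzw⟩, ⟨zu, hzu⟩, ⟨zv, hzv⟩⟩ := hu
  have hpa := fun k hk i hi1 => pa_bd (p := p) hh E A hA (k := k) hk (hE k hk) i hi1
  have hwi : padicNorm p ((q : ℚ) * w) ≤ 1 := by rw [hzw]; exact padicNorm.of_int zw
  have hfs : ∀ i k : ℕ, i ≤ 3 → k ≤ 2 * h →
      padicNorm p ((q : ℚ) * fw σ (Pool.Agent.W34.GB.KK h) w i k) ≤ ((10 * h + 8 : ℕ) : ℚ) ^ 3 := fun i k hi hk =>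
    fw_bd p h σ (Pool.Agent.W34.GB.KK h) i k q w hσ hi hk (by unfold Pool.Agent.W34.GB.KK; omega) hwi
  have hM1 : 1 ≤ ((10 * h + 8 : ℕ) : ℚ) := by exact_mod_cast (by omega : 1 ≤ 10 * h + 8)
  have hU := mul_nonneg (UU_nonneg (p := p) h) hA
  clear hE
  generalize ((10 * h + 8 : ℕ) : ℚ) = M at *
  have hM0 : (0 : ℚ) ≤ M := by linarith
  have hW : 0 ≤ M ^ 11 * (UU p h * A) := mul_nonneg (pow_nonneg hM0 _) hU
  have hM6 : 0 ≤ M ^ 8 * (UU p h * A) := mul_nonneg (pow_nonneg hM0 _) hU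
  have hM2 : (1 : ℚ) ≤ M ^ 3 := one_le_pow₀ hM1
  have hui : padicNorm p ((q : ℚ) * u) ≤ 1 := by
    rw [hzu]; exact padicNorm.of_int zu
  have hvi : padicNorm p ((q : ℚ) * v) ≤ 1 := by
    rw [hzv]; exact padicNorm.of_int zv
  have e8 : M ^ 8 * (UU p h * A) * M ^ 3 = M ^ 11 * (UU p h * A) := by ring
  unfold xf
  rw [Finset.mul_sum]
  apply padicNorm.sum_le' _ hW
  intro k hk
  have hk8 : k ≤ 2 * h := by
    rw [sN, Finset.mem_Icc] at hk
    exact hk.2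
  have e : (q : ℚ) * (pa (sN h) m3 E k 3 * (v - fw σ (Pool.Agent.W34.GB.KK h) w 3 k) +
      pa (sN h) m3 E k 2 * (u - fw σ (Pool.Agent.W34.GB.KK h) w 2 k) - pa (sN h) m3 E k 1 * fw σ (Pool.Agent.W34.GB.KK h) w 1 k) =
      pa (sN h) m3 E k 3 * ((q : ℚ) * v - (q : ℚ) * fw σ (Pool.Agent.W34.GB.KK h) w 3 k) +
      pa (sN h) m3 E k 2 * ((q : ℚ) * u - (q : ℚ) * fw σ (Pool.Agent.W34.GB.KK h) w 2 k) -
        pa (sN h) m3 E k 1 * ((q : ℚ) * fw σ (Pool.Agent.W34.GB.KK h) w 1 k) := by ring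
  rw [e, ← e8]
  refine padicNorm.sub.trans (max_le (padicNorm.nonarchimedean.trans (max_le ?_ ?_)) ?_)
  · refine PS_nmul _ _ _ _ hM6 (hpa k hk 3 (by norm_num)) ?_
    exact padicNorm.sub.trans (max_le (hvi.trans hM2) (hfs 3 k le_rfl hk8))
  · refine PS_nmul _ _ _ _ hM6 (hpa k hk 2 (by norm_num)) ?_
    exact padicNorm.sub.trans (max_le (hui.trans hM2) (hfs 2 k (by norm_num) hk8))
  · refine PS_nmul _ _ _ _ hM6 (hpa k hk 1 (by norm_num)) ?_
    exact hfs 1 k (by norm_num) hk8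

/-- from the entries to the determinant -/
lemma det_aux {h σ p : ℕ} [Fact p.Prime] (q : ℕ) (w u v : ℚ) (U : ℚ) (hU : 0 ≤ U)
    (hent : ∀ i j : ℕ, i < 3 * h → j < 3 * h →
      padicNorm p ((q : ℚ) * xf h σ w u v (PSP i * PSP j)) ≤
        U * (padicNorm p ((i.factorial : ℕ) : ℚ) * padicNorm p ((j.factorial : ℕ) : ℚ))) :
    padicNorm p ((q : ℚ) ^ (3 * h) * DET h σ w u v) ≤ U ^ (3 * h) *
      ∏ i ∈ Finset.range (3 * h), padicNorm p ((i.factorial : ℕ) : ℚ) ^ 2 := by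
  have h1 : (q : ℚ) ^ (3 * h) * DET h σ w u v =
      ((q : ℚ) • (Matrix.of fun i j : Fin (3 * h) => NL h σ w u v (PSP i * PSP j))).det := by
    rw [Matrix.det_smul, Fintype.card_fin, DET,
      ← Pool.Agent.H336R2.HD.A1_det_monic (NL h σ w u v) (3 * h) PSP (fun i _ => PSP_monic i)]
  rw [h1]
  have h2 := Pool.Agent.H336R2.HD.A3_padic_det p (3 * h)
    ((q : ℚ) • (Matrix.of fun i j : Fin (3 * h) => NL h σ w u v (PSP i * PSP j)))
    (fun i => U * padicNorm p ((i.factorial : ℕ) : ℚ) ^ 2) (fun i => mul_nonneg hU (by positivity)) (by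
      intro i j
      have h3 := hent i j i.2 j.2
      have h4 : (((q : ℚ) • (Matrix.of fun i j : Fin (3 * h) => NL h σ w u v (PSP i * PSP j))) i j) =
          (q : ℚ) * xf h σ w u v (PSP i * PSP j) := by
        rw [Matrix.smul_apply, Matrix.of_apply, smul_eq_mul, NL_apply]
      rw [h4]
      calc _ ≤ (U * (padicNorm p ((i.1.factorial : ℕ) : ℚ) * padicNorm p ((j.1.factorial : ℕ) : ℚ))) ^ 2 :=
            pow_le_pow_left₀ (padicNorm.nonneg _) h3 2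
        _ = _ := by ring)
  refine h2.trans (le_of_eq ?_)
  rw [Finset.prod_mul_distrib, Finset.prod_const, Finset.card_range]

theorem det_bd {h p σ : ℕ} [Fact p.Prime] (hh : 1 ≤ h) (q : ℕ) (w u v : ℚ) (hu : UInt q w u v)
    (hσ : σ = 1 ∨ σ = 3) :
    padicNorm p ((q : ℚ) ^ (3 * h) * DET h σ w u v) ≤
      (((10 * h + 8 : ℕ) : ℚ) ^ 11 * UU p h) ^ (3 * h) *
        ∏ i ∈ Finset.range (3 * h), padicNorm p ((i.factorial : ℕ) : ℚ) ^ 2 := by
  have hM0 : (0 : ℚ) ≤ ((10 * h + 8 : ℕ) : ℚ) := Nat.cast_nonneg _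
  have hPB1 : ∀ i : ℕ, i ≤ 3 * h → ∀ k : ℕ,
      PB p ((10 * h + 8 : ℕ) : ℚ) (padicNorm p ((i.factorial : ℕ) : ℚ)) (TS (-(k : ℚ)) (PSP i)) := by
    intro i hi k
    have h := Pool.Agent.H574R2.D3.C4_PB_fN (p := p) (3 * h) ((10 * h + 8 : ℕ) : ℚ)
      (by exact_mod_cast (by omega : 1 ≤ 10 * h + 8)) (by
        intro l hl1 hl2
        have h1 := norm_inv_le (p := p) (a := (l : ℤ)) (by omega) (M := ((10 * h + 8 : ℕ) : ℚ)) (by
          rw [Int.cast_natCast, abs_of_nonneg (by positivity)]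
          exact_mod_cast (by omega : l ≤ 10 * h + 8))
        rw [Int.cast_natCast] at h1
        exact h1) i hi (-(k : ℤ))
    have e : TS (-(k : ℚ)) (PSP i) = Pool.Agent.H336R2.HD.fN (-(k : ℤ)) i := by
      unfold Pool.Agent.H336R2.HD.fN PSP
      rw [map_prod]
      refine Finset.prod_congr rfl fun l _ => ?_
      rw [TS_lin]
      push_cast
      congr 2
    rw [e]
    exact h
  have hPB : ∀ i j : ℕ, i < 3 * h → j < 3 * h → ∀ k : ℕ,
      PB p ((10 * h + 8 : ℕ) : ℚ) (padicNorm p ((i.factorial : ℕ) : ℚ) * padicNorm p ((j.factorial : ℕ) : ℚ))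
        (TS (-(k : ℚ)) (PSP i * PSP j)) := by
    intro i j hi hj k
    rw [map_mul]
    exact PB.mul hM0 (padicNorm.nonneg _) (padicNorm.nonneg _) (hPB1 i (by omega) k) (hPB1 j (by omega) k)
  refine det_aux (h := h) (p := p) q w u v (((10 * h + 8 : ℕ) : ℚ) ^ 11 * UU p h)
    (mul_nonneg (pow_nonneg hM0 _) (UU_nonneg h)) ?_
  intro i j hi hj
  have := entry (p := p) (σ := σ) hh q w u v hu hσ (PSP i * PSP j) _
    (mul_nonneg (padicNorm.nonneg (p := p) ((i.factorial : ℕ) : ℚ)) (padicNorm.nonneg (p := p) ((j.factorial : ℕ) : ℚ)))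
    (fun k _ => hPB i j hi hj k)
  rw [mul_assoc]
  exact this

/-- final arithmetic -/
theorem fin_bd {h p : ℕ} [Fact p.Prime] :
    (((10 * h + 8 : ℕ) : ℚ) ^ 11 * UU p h) ^ (3 * h) *
        ∏ i ∈ Finset.range (3 * h), padicNorm p ((i.factorial : ℕ) : ℚ) ^ 2 ≤
      (p : ℚ) ^ (2 * padicValNat p (∏ i ∈ Finset.range (3 * h), i.factorial) +
        51 * h * (Nat.log p (10 * h + 8) + 1) : ℕ) := by
  have hleg := leg p h
  have hp : p.Prime := Fact.out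
  have hp1 : (1 : ℚ) ≤ p := by exact_mod_cast hp.one_lt.le
  have hp0 : (p : ℚ) ≠ 0 := by exact_mod_cast hp.ne_zero
  set E := Nat.log p (10 * h + 8) + 1 with hE
  set V := padicValNat p (∏ i ∈ Finset.range (3 * h), i.factorial) with hV
  have hM : ((10 * h + 8 : ℕ) : ℚ) ≤ (p : ℚ) ^ E := by
    have := (Nat.lt_pow_succ_log_self hp.one_lt (10 * h + 8)).le
    exact_mod_cast this
  have h8 : padicNorm p (((2 * h).factorial : ℕ) : ℚ) = (p : ℚ) ^ (-(padicValNat p (2 * h).factorial : ℤ)) :=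
    PS_norm_eq p _ (Nat.factorial_ne_zero _)
  have h7 : ∏ i ∈ Finset.range (3 * h), padicNorm p ((i.factorial : ℕ) : ℚ) ^ 2 = (p : ℚ) ^ (-(2 * V : ℤ)) := by
    rw [Finset.prod_pow, ← padicNorm_prod', ← Nat.cast_prod,
      PS_norm_eq p _ (Finset.prod_ne_zero_iff.2 fun i _ => Nat.factorial_ne_zero i), ← hV,
      ← zpow_natCast, ← zpow_mul]
    congr 1
    push_cast
    ring
  have hU : UU p h = (p : ℚ) ^ (3 * (padicValNat p (2 * h).factorial : ℤ)) := by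
    unfold UU
    rw [h8, ← zpow_neg, ← zpow_natCast, ← zpow_mul]
    congr 1
    push_cast
    ring
  have hU0 := UU_nonneg (p := p) h
  have hM0 : (0 : ℚ) ≤ ((10 * h + 8 : ℕ) : ℚ) := Nat.cast_nonneg _
  calc (((10 * h + 8 : ℕ) : ℚ) ^ 11 * UU p h) ^ (3 * h) *
        ∏ i ∈ Finset.range (3 * h), padicNorm p ((i.factorial : ℕ) : ℚ) ^ 2
      ≤ (((p : ℚ) ^ E) ^ 11 * UU p h) ^ (3 * h) *
        ∏ i ∈ Finset.range (3 * h), padicNorm p ((i.factorial : ℕ) : ℚ) ^ 2 := by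
          have : 0 ≤ ∏ i ∈ Finset.range (3 * h), padicNorm p ((i.factorial : ℕ) : ℚ) ^ 2 :=
            Finset.prod_nonneg fun i _ => by positivity
          gcongr
    _ = (p : ℚ) ^ (((E : ℤ) * 11 + 3 * (padicValNat p (2 * h).factorial : ℤ)) *
          ((3 * h : ℕ) : ℤ) + -(2 * V : ℤ)) := by
          rw [h7, hU, ← zpow_natCast (p : ℚ) E, ← zpow_natCast ((p : ℚ) ^ (E : ℤ)) 11, ← zpow_mul,
            ← zpow_add₀ hp0, ← zpow_natCast _ (3 * h), ← zpow_mul, ← zpow_add₀ hp0]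
          norm_num
    _ ≤ (p : ℚ) ^ ((2 * V + 51 * h * E : ℕ) : ℤ) := by
          apply zpow_le_zpow_right₀ hp1
          have hl : (9 : ℤ) * h * padicValNat p (2 * h).factorial ≤
              4 * V + 18 * (h * E) := by exact_mod_cast hleg
          push_cast
          nlinarith [hl]
    _ = _ := by rw [zpow_natCast]

theorem T_P3 : Psmall := by
  refine ⟨51, fun h σ q p _ w u v hσ hu hh _ => ?_⟩
  exact (det_bd (by omega) q w u v hu hσ).trans fin_bd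

end

end Pool.Agent.W924.GZ
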